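import Mathlib
import Pool.Agent.Helper542_expip.Defs
import Pool.Agent.Helper542_expip.TypeII
import Pool.Agent.H225.ExpOne

/-!
Q1 and Q2 for both types.  Every partition of the natural numbers into finitely many cells has a
cell which is an exponential IP set of type II, while some partition into two (nonempty) cells
has no cell which is an exponential IP set of type I.
-/

namespace Pool.Agent.Results.MP_952e1b_co.FullAnswer

open Pool.Agent.Helper542ExpIP

theorem fei_eq (x : ℕ → ℕ) (n : ℕ) : Pool.Agent.H225.ExpOne.FEI x n = FEI x n := by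
  induction n with
  | zero => rfl
  | succ n ih =>
    rw [Pool.Agent.H225.ExpOne.FEI, FEI, ih]

theorem expI {C : Set ℕ} (h : IsExpIPI C) : Pool.Agent.H225.ExpOne.IsExpIPI C := by
  obtain ⟨x, hx, h⟩ := h
  exact ⟨x, hx, fun n => by rw [fei_eq]; exact h n⟩

theorem univI : Pool.Agent.H225.ExpOne.IsExpIPI (Set.univ : Set ℕ) :=
  ⟨id, strictMono_id, fun n => Set.subset_univ _⟩

theorem result :
    (∀ (r : ℕ) (c : ℕ → Fin r), ∃ i, IsExpIPII {n | c n = i}) ∧
    ∃ A B : Set ℕ, A.Nonempty ∧ B.Nonempty ∧ Disjoint A B ∧ A ∪ B = Set.univ ∧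
      ¬ IsExpIPI A ∧ ¬ IsExpIPI B := by
  refine ⟨typeII_all, ?_⟩
  obtain ⟨c, hc⟩ := Pool.Agent.H225.ExpOne.main
  have hne : ∀ κ : Bool, {n | c n = κ}.Nonempty := by
    intro κ
    by_contra h
    rw [Set.not_nonempty_iff_eq_empty] at h
    apply hc (!κ)
    have e : {n | c n = !κ} = Set.univ := by
      ext n
      simp only [Set.mem_ofPred_eq, Set.mem_univ, iff_true]
      by_contra hn
      have hmem : n ∈ {n | c n = κ} := by
        show c n = κ
        cases h1 : c n <;> cases κ <;> simp_all
      rw [h] at hmem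
      exact hmem
    rw [e]
    exact univI
  refine ⟨{n | c n = true}, {n | c n = false}, hne true, hne false, ?_, ?_,
    fun h => hc true (expI h), fun h => hc false (expI h)⟩
  · rw [Set.disjoint_left]
    intro n h1 h2
    have h1' : c n = true := h1
    have h2' : c n = false := h2
    rw [h1'] at h2'
    exact absurd h2' (by decide)
  · ext n
    simp only [Set.mem_union, Set.mem_ofPred_eq, Set.mem_univ, iff_true]
    cases c n <;> simp

end Pool.Agent.Results.MP_952e1b_co.FullAnswer
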