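import Mathlib
import Pool.Agent.H225.ExpOne

/-!
There is a partition of the natural numbers into two (nonempty) cells neither of which is an
exponential IP set of type I.
-/

namespace Pool.Agent.Results.MP_952e1b_co.TypeOneTwoCells

open Pool.Agent.H225.ExpOne

theorem result :
    ∃ A B : Set ℕ, A.Nonempty ∧ B.Nonempty ∧ Disjoint A B ∧ A ∪ B = Set.univ ∧
      ¬ IsExpIPI A ∧ ¬ IsExpIPI B := by
  obtain ⟨c, hc⟩ := main
  have huniv : IsExpIPI (Set.univ : Set ℕ) := ⟨id, strictMono_id, fun n => Set.subset_univ _⟩
  refine ⟨{n | c n = true}, {n | c n = false}, ?_, ?_, ?_, ?_, hc true, hc false⟩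
  · by_contra h
    rw [Set.not_nonempty_iff_eq_empty] at h
    apply hc false
    have : {n | c n = false} = Set.univ := by
      ext n
      simp only [Set.mem_setOf_eq, Set.mem_univ, iff_true]
      by_contra hn
      have hmem : n ∈ {n | c n = true} := by simpa using hn
      rw [h] at hmem
      exact hmem
    rw [this]
    exact huniv
  · by_contra h
    rw [Set.not_nonempty_iff_eq_empty] at h
    apply hc true
    have : {n | c n = true} = Set.univ := by
      ext n
      simp only [Set.mem_setOf_eq, Set.mem_univ, iff_true]
      by_contra hn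
      have hmem : n ∈ {n | c n = false} := by simpa using hn
      rw [h] at hmem
      exact hmem
    rw [this]
    exact huniv
  · rw [Set.disjoint_left]
    intro n h1 h2
    simp only [Set.mem_setOf_eq] at h1 h2
    rw [h1] at h2
    exact absurd h2 (by decide)
  · ext n
    simp only [Set.mem_union, Set.mem_setOf_eq, Set.mem_univ, iff_true]
    cases c n <;> simp

end Pool.Agent.Results.MP_952e1b_co.TypeOneTwoCells
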